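import Pool.Agent.H52J.Det

/-! Core estimate: an indicator which returns close to itself infinitely often at times read off
from a base point is orthogonal to every function with decaying correlations which is independent
of the base. -/

set_option linter.style.longLine false
set_option linter.unusedSectionVars false
set_option linter.style.header false

namespace Pool.Agent.H52J

open MeasureTheory Finset Filter Topology

section

variable {Ω W : Type*} [MeasurableSpace Ω] [MeasurableSpace W]

open Classical in
/-- closeness relation below `N` at the base point `x` -/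
noncomputable def rel (d : W → ℕ → ℕ → ℝ) (ε : ℝ) (N : ℕ) (x : W) : Finset (ℕ × ℕ) :=
  ((range N) ×ˢ (range N)).filter fun p => d x p.1 p.2 < ε

open Classical in
/-- number of `k < L` with `d x 0 k < ε` -/
noncomputable def cnt (d : W → ℕ → ℕ → ℝ) (ε : ℝ) (L : ℕ) (x : W) : ℕ :=
  ((range L).filter fun k => d x 0 k < ε).card

variable {d : W → ℕ → ℕ → ℝ} (hd : ∀ n m, Measurable fun x => d x n m)
  (hsym : ∀ x n m, d x n m = d x m n) (hdiag : ∀ x n, d x n n = 0)

include hd in
lemma measurableSet_rel (ε : ℝ) (N : ℕ) (σ : Finset (ℕ × ℕ)) :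
    MeasurableSet {x | rel d ε N x = σ} := by
  classical
  by_cases hσ : σ ⊆ (range N) ×ˢ (range N)
  · have : {x | rel d ε N x = σ} = ⋂ p ∈ (range N) ×ˢ (range N), {x | d x p.1 p.2 < ε ↔ p ∈ σ} := by
      ext x
      simp only [Set.mem_ofPred_eq, Set.mem_iInter]
      constructor
      · intro h p hp
        rw [← h]
        simp only [rel, mem_filter]
        exact ⟨fun h => ⟨hp, h⟩, fun h => h.2⟩
      · intro h
        ext p
        simp only [rel, mem_filter]
        constructor
        · rintro ⟨h1, h2⟩
          exact (h p h1).1 h2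
        · intro h1
          exact ⟨hσ h1, (h p (hσ h1)).2 h1⟩
    rw [this]
    apply Finset.measurableSet_biInter
    intro p _
    by_cases hp : p ∈ σ
    · simp only [hp, iff_true]
      exact measurableSet_lt (hd _ _) measurable_const
    · simp only [hp, iff_false, not_lt]
      exact measurableSet_le measurable_const (hd _ _)
  · have : {x | rel d ε N x = σ} = ∅ := by
      ext x
      simp only [Set.mem_ofPred_eq, Set.mem_empty_iff_false, iff_false]
      intro h
      apply hσ
      rw [← h]
      exact Finset.filter_subset _ _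
    rw [this]
    exact MeasurableSet.empty

include hd in
lemma measurable_cnt (ε : ℝ) (L : ℕ) : Measurable (cnt d ε L) := by
  classical
  have : cnt d ε L = fun x => ∑ k ∈ range L, if d x 0 k < ε then 1 else 0 := by
    funext x
    simp only [cnt, Finset.card_filter]
  rw [this]
  apply Finset.measurable_fun_sum
  intro k _
  exact Measurable.ite (measurableSet_lt (hd _ _) measurable_const) measurable_const measurable_const

include hdiag in
lemma cnt_pos {ε : ℝ} (hε : 0 < ε) {L : ℕ} (hL : 0 < L) (x : W) : 0 < cnt d ε L x := by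
  classical
  apply Finset.card_pos.mpr
  exact ⟨0, by simp [hL, hdiag, hε]⟩

lemma cnt_le_nb {S : W → W} (hshift : ∀ x n k, d x n (n + k) = d (S^[n] x) 0 k)
    {ε : ℝ} {N n : ℕ} (hn : n < N) (x : W) :
    cnt d ε (N - n) (S^[n] x) ≤ (nb N (rel d ε N x) n).card := by
  classical
  apply Finset.card_le_card_of_injOn (fun k => n + k)
  · intro k hk
    simp only [coe_filter, Finset.mem_range, Set.mem_ofPred_eq] at hk
    simp only [nb, rel, coe_filter, Finset.mem_range, Set.mem_ofPred_eq, mem_filter, mem_product]
    refine ⟨by omega, ⟨hn, by omega⟩, ?_⟩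
    rw [hshift]
    exact hk.2
  · intro a _ b _ h
    simpa using h

lemma tendsto_cnt {ε : ℝ} {x : W} (h : ∃ᶠ k in atTop, d x 0 k < ε) :
    Tendsto (fun L => cnt d ε L x) atTop atTop := by
  classical
  apply tendsto_atTop_mono' (f₁ := fun L => Nat.count (fun k => d x 0 k < ε) L)
  · filter_upwards with L
    simp [cnt, Nat.count_eq_card_filter_range]
  · have hinf : {k | d x 0 k < ε}.Infinite := Nat.frequently_atTop_iff_infinite.mp h
    rw [tendsto_atTop_atTop]
    intro b
    refine ⟨Nat.nth (fun k => d x 0 k < ε) b, fun L hL => ?_⟩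
    calc b = Nat.count (fun k => d x 0 k < ε) (Nat.nth (fun k => d x 0 k < ε) b) :=
          (Nat.count_nth_of_infinite hinf b).symm
      _ ≤ _ := Nat.count_monotone _ hL

/-- mean inverse number of returns -/
noncomputable def theta (lam : Measure W) (d : W → ℕ → ℕ → ℝ) (ε : ℝ) (L : ℕ) : ℝ :=
  ∫ x, 1 / (cnt d ε L x : ℝ) ∂lam

include hd in
lemma measurable_inv_cnt (ε : ℝ) (L : ℕ) : Measurable fun x => 1 / (cnt d ε L x : ℝ) :=
  measurable_const.div (measurable_from_nat.comp (measurable_cnt hd ε L))

lemma inv_cnt_le (ε : ℝ) (L : ℕ) (x : W) : |1 / (cnt d ε L x : ℝ)| ≤ 1 := by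
  rw [abs_of_nonneg (by positivity)]
  rcases Nat.eq_zero_or_pos (cnt d ε L x) with h | h
  · rw [h]; simp
  · rw [div_le_one (by exact_mod_cast h)]
    exact_mod_cast h

include hd in
lemma tendsto_theta (lam : Measure W) [IsProbabilityMeasure lam] {ε : ℝ}
    (hrec : ∀ᵐ x ∂lam, ∃ᶠ k in atTop, d x 0 k < ε) :
    Tendsto (theta lam d ε) atTop (𝓝 0) := by
  have h := tendsto_integral_of_dominated_convergence (μ := lam)
    (F := fun L x => 1 / (cnt d ε L x : ℝ)) (f := fun _ => 0) (fun _ => 1)
    (fun L => (measurable_inv_cnt hd ε L).aestronglyMeasurable) (integrable_const _)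
    (fun L => Eventually.of_forall fun x => by
      rw [Real.norm_eq_abs]; exact inv_cnt_le ε L x)
    (by
      filter_upwards [hrec] with x hx
      have := tendsto_cnt hx
      exact tendsto_const_nhds.div_atTop (tendsto_natCast_atTop_atTop.comp this))
  rw [integral_zero] at h
  exact h

include hd hdiag in
lemma invSum_le {S : W → W} (lam : Measure W) [IsProbabilityMeasure lam]
    (hS : MeasurePreserving S lam lam)
    (hshift : ∀ x n k, d x n (n + k) = d (S^[n] x) 0 k)
    {ε : ℝ} (hε : 0 < ε) (N : ℕ) (hmeas : Measurable fun x => invSum N (rel d ε N x)) :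
    ∫ x, invSum N (rel d ε N x) ∂lam ≤ ∑ L ∈ range N, theta lam d ε (L + 1) := by
  have hmS : ∀ n, Measurable S^[n] := fun n => hS.measurable.iterate n
  have hpt : ∀ x, invSum N (rel d ε N x)
      ≤ ∑ n ∈ range N, 1 / (cnt d ε (N - n) (S^[n] x) : ℝ) := by
    intro x
    unfold invSum
    apply Finset.sum_le_sum
    intro n hn
    have hn := mem_range.mp hn
    apply one_div_le_one_div_of_le
    · exact_mod_cast cnt_pos hdiag hε (by omega) _
    · exact_mod_cast cnt_le_nb hshift hn x
  have hnn : ∀ x, 0 ≤ invSum N (rel d ε N x) := fun x =>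
    Finset.sum_nonneg fun n _ => by positivity
  have hI : ∀ n, Integrable (fun x => 1 / (cnt d ε (N - n) (S^[n] x) : ℝ)) lam := fun n =>
    integrable_of_bdd (C := 1) ((measurable_inv_cnt hd ε (N - n)).comp (hmS n))
      fun x => inv_cnt_le ε _ _
  have hI2 : Integrable (fun x => ∑ n ∈ range N, 1 / (cnt d ε (N - n) (S^[n] x) : ℝ)) lam :=
    integrable_finsetSum _ fun n _ => hI n
  have hI1 : Integrable (fun x => invSum N (rel d ε N x)) lam := by
    apply hI2.mono' hmeas.aestronglyMeasurable
    filter_upwards with x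
    rw [Real.norm_eq_abs, abs_of_nonneg (hnn x)]
    exact hpt x
  calc ∫ x, invSum N (rel d ε N x) ∂lam
      ≤ ∫ x, ∑ n ∈ range N, 1 / (cnt d ε (N - n) (S^[n] x) : ℝ) ∂lam :=
        integral_mono hI1 hI2 hpt
    _ = ∑ n ∈ range N, ∫ x, 1 / (cnt d ε (N - n) (S^[n] x) : ℝ) ∂lam :=
        integral_finsetSum _ fun n _ => hI n
    _ = ∑ n ∈ range N, theta lam d ε (N - n) := by
        apply Finset.sum_congr rfl
        intro n _
        unfold theta
        conv_rhs => rw [← (hS.iterate n).map_eq]
        rw [integral_map (hmS n).aemeasurable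
          (measurable_inv_cnt hd ε (N - n)).aestronglyMeasurable]
    _ = ∑ L ∈ range N, theta lam d ε (L + 1) := by
        rw [← Finset.sum_range_reflect]
        apply Finset.sum_congr rfl
        intro n hn
        have := mem_range.mp hn
        congr 1
        omega

include hd in
lemma measurable_invSum (ε : ℝ) (N : ℕ) : Measurable fun x => invSum N (rel d ε N x) := by
  classical
  have h1 : Measurable fun x => rel d ε N x := by
    have : Set.Countable (Set.range fun x => rel d ε N x) := Set.to_countable _
    exact measurable_to_countable' fun σ => measurableSet_rel hd ε N σ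
  exact (measurable_of_countable (fun σ : Finset (ℕ × ℕ) => invSum N σ)).comp h1

end

section

variable {Ω W : Type*} [MeasurableSpace Ω] [MeasurableSpace W]

/-- Core estimate. -/
theorem core (P : Measure Ω) [IsProbabilityMeasure P] (lam : Measure W) [IsProbabilityMeasure lam]
    {τ : Ω → Ω} (hτ : MeasurePreserving τ P P) {S : W → W} (hS : MeasurePreserving S lam lam)
    {w : Ω → W} (hw : MeasurePreserving w P lam) (hws : ∀ ω, w (τ ω) = S (w ω))
    {e ψ : Ω → ℝ} (he : Measurable e) (hψ : Measurable ψ) (he1 : ∀ ω, |e ω| ≤ 1)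
    (hψ1 : ∀ ω, |ψ ω| ≤ 1)
    {d : W → ℕ → ℕ → ℝ} (hd : ∀ n m, Measurable fun x => d x n m)
    (hsym : ∀ x n m, d x n m = d x m n) (hdiag : ∀ x n, d x n n = 0)
    (hd1 : ∀ x n m, |d x n m| ≤ 1)
    (hde : ∀ n m, ∀ A : Set W, MeasurableSet A →
      ∫ ω in w ⁻¹' A, |e (τ^[n] ω) - e (τ^[m] ω)| ∂P = ∫ x in A, d x n m ∂lam)
    (hshift : ∀ x n k, d x n (n + k) = d (S^[n] x) 0 k)
    (hrec : ∀ ε > 0, ∀ᵐ x ∂lam, ∃ᶠ k in atTop, d x 0 k < ε)
    {ρ : ℕ → ℝ} (hρ0 : Tendsto ρ atTop (𝓝 0))
    (hρ : ∀ A : Set W, MeasurableSet A → ∀ n k,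
      ∫ ω in w ⁻¹' A, ψ (τ^[n] ω) * ψ (τ^[n + k] ω) ∂P = lam.real A * ρ k)
    {A : Set W} (hA : MeasurableSet A) :
    ∫ ω in w ⁻¹' A, e ω * ψ ω ∂P = 0 := by
  classical
  set I := ∫ ω in w ⁻¹' A, e ω * ψ ω ∂P with hI
  have hmτ : ∀ n, Measurable τ^[n] := fun n => hτ.measurable.iterate n
  have hwn : ∀ n ω, w (τ^[n] ω) = S^[n] (w ω) := by
    intro n
    induction n with
    | zero => intro ω; rfl
    | succ n ih =>
      intro ω
      rw [Function.iterate_succ_apply, Function.iterate_succ_apply, ih, hws]
  -- the sequences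
  let E : ℕ → Ω → ℝ := fun n ω => e (τ^[n] ω)
  let G0 : Ω → ℝ := (w ⁻¹' A).indicator ψ
  let G : ℕ → Ω → ℝ := fun n ω => G0 (τ^[n] ω)
  have hwA : MeasurableSet (w ⁻¹' A) := hw.measurable hA
  have hG0 : Measurable G0 := hψ.indicator hwA
  have hG01 : ∀ ω, |G0 ω| ≤ 1 := by
    intro ω
    by_cases h : ω ∈ w ⁻¹' A
    · simp only [G0, Set.indicator_of_mem h]; exact hψ1 ω
    · simp only [G0, Set.indicator_of_notMem h]; simp
  have hE : ∀ n, Measurable (E n) := fun n => he.comp (hmτ n)
  have hE1 : ∀ n ω, |E n ω| ≤ 1 := fun n ω => he1 _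
  have hG : ∀ n, Measurable (G n) := fun n => hG0.comp (hmτ n)
  have hG1 : ∀ n ω, |G n ω| ≤ 1 := fun n ω => hG01 _
  have hI0 : ∫ ω, e ω * G0 ω ∂P = I := by
    rw [hI, ← integral_indicator hwA]
    congr 1
    funext ω
    by_cases h : ω ∈ w ⁻¹' A
    · simp only [G0, Set.indicator_of_mem h]
    · simp only [G0, Set.indicator_of_notMem h]; simp
  have hEG : ∀ n, ∫ ω, E n ω * G n ω ∂P = I := by
    intro n
    have hm : Measurable fun ω => e ω * G0 ω := he.mul hG0
    rw [← hI0]
    conv_rhs => rw [← (hτ.iterate n).map_eq]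
    rw [integral_map (hmτ n).aemeasurable hm.aestronglyMeasurable]
  -- product of two g's on a base event
  have hGG : ∀ (B : Set W), MeasurableSet B → ∀ n k,
      ∫ ω in w ⁻¹' B, G n ω * G (n + k) ω ∂P
        = lam.real (B ∩ (S^[n] ⁻¹' A ∩ S^[n + k] ⁻¹' A)) * ρ k := by
    intro B hB n k
    have hmS : ∀ n, Measurable S^[n] := fun n => hS.measurable.iterate n
    rw [← hρ _ (hB.inter ((hmS n hA).inter (hmS (n + k) hA))) n k, Set.preimage_inter,
      ← integral_indicator (hw.measurable hB),
      ← integral_indicator ((hw.measurable hB).inter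
        (hw.measurable ((hmS n hA).inter (hmS (n + k) hA))))]
    congr 1
    funext ω
    have key : ∀ n, G n ω = if S^[n] (w ω) ∈ A then ψ (τ^[n] ω) else 0 := by
      intro n
      simp only [G, G0, Set.indicator_apply, Set.mem_preimage, hwn]
    simp only [Set.indicator_apply, Set.mem_inter_iff, Set.mem_preimage, key]
    by_cases h1 : w ω ∈ B <;> by_cases h2 : S^[n] (w ω) ∈ A <;>
      by_cases h3 : S^[n + k] (w ω) ∈ A <;> simp [h1, h2, h3]
  -- main estimate
  have main : ∀ ξ : ℝ, 0 < ξ → |I| ≤ 4 * ξ := by
    intro ξ hξ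
    -- threshold for the correlations
    obtain ⟨k₀, hk₀⟩ : ∃ k₀, ∀ k ≥ k₀, |ρ k| ≤ ξ ^ 2 := by
      have := (Metric.tendsto_atTop.mp hρ0) (ξ ^ 2) (by positivity)
      obtain ⟨k₀, h⟩ := this
      refine ⟨k₀, fun k hk => ?_⟩
      have := h k hk
      rw [Real.dist_eq, sub_zero] at this
      exact this.le
    have hest : ∀ N : ℕ, (N : ℝ) * |I|
        ≤ ξ * N + ξ * N + ξ * N / 2 + k₀ * (∑ L ∈ range N, theta lam d ξ (L + 1)) / ξ := by
      intro N
      let R := (range N) ×ˢ (range N)
      let Q : Finset (ℕ × ℕ) → Set W := fun σ => {x | rel d ξ N x = σ}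
      have hQ : ∀ σ, MeasurableSet (Q σ) := fun σ => measurableSet_rel hd ξ N σ
      have hcov : (⋃ σ ∈ R.powerset, w ⁻¹' (Q σ)) = Set.univ := by
        ext ω
        simp only [Set.mem_iUnion, Set.mem_univ, iff_true]
        refine ⟨rel d ξ N (w ω), ?_, rfl⟩
        rw [Finset.mem_powerset]
        exact Finset.filter_subset _ _
      have hdisj : (R.powerset : Set (Finset (ℕ × ℕ))).Pairwise
          (Function.onFun Disjoint fun σ => w ⁻¹' (Q σ)) := by
        intro σ _ σ' _ hne
        rw [Function.onFun, Set.disjoint_left]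
        intro ω h1 h2
        simp only [Set.mem_preimage, Q, Set.mem_ofPred_eq] at h1 h2
        exact hne (h1.symm.trans h2)
      have split : ∀ f : Ω → ℝ, Integrable f P →
          ∫ ω, f ω ∂P = ∑ σ ∈ R.powerset, ∫ ω in w ⁻¹' (Q σ), f ω ∂P := by
        intro f hf
        rw [← setIntegral_univ, ← hcov]
        exact integral_biUnion_finset _ (fun σ _ => hw.measurable (hQ σ)) hdisj
          (fun σ _ => hf.integrableOn)
      have hEGi : ∀ n, Integrable (fun ω => E n ω * G n ω) P := fun n =>
        integrable_of_bdd (C := 1) ((hE n).mul (hG n)) fun ω => by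
          rw [abs_mul]
          have h1 := hE1 n ω
          have h2 := hG1 n ω
          have h3 := abs_nonneg (E n ω)
          have h4 := abs_nonneg (G n ω)
          nlinarith
      have s1 : (N : ℝ) * I
          = ∑ σ ∈ R.powerset, ∑ n ∈ range N, ∫ ω in w ⁻¹' (Q σ), E n ω * G n ω ∂P := by
        rw [Finset.sum_comm]
        rw [Finset.sum_congr rfl fun n _ => (split _ (hEGi n)).symm]
        rw [Finset.sum_congr rfl fun n _ => hEG n]
        simp
      have s2 : ∀ σ ∈ R.powerset, |∑ n ∈ range N, ∫ ω in w ⁻¹' (Q σ), E n ω * G n ω ∂P|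
          ≤ P.real (w ⁻¹' (Q σ)) * (ξ * N + ξ * N + ξ * N / 2 + k₀ * invSum N σ / ξ) := by
        intro σ _
        by_cases hne : (w ⁻¹' (Q σ)).Nonempty
        · obtain ⟨ω₀, hω₀⟩ := hne
          have hσ : rel d ξ N (w ω₀) = σ := hω₀
          have hq : P.real (w ⁻¹' (Q σ)) = lam.real (Q σ) := by
            rw [measureReal_def, measureReal_def, hw.measure_preimage (hQ σ).nullMeasurableSet]
          apply det (P := P.restrict (w ⁻¹' (Q σ))) (V := σ) (N := N) _ _ hE hE1 hG hG1 _ hξ hξ
          · -- closeness
            intro n hn m hm hnm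
            rw [hde n m (Q σ) (hQ σ), hq]
            have : ∀ x ∈ Q σ, d x n m ≤ ξ := by
              intro x hx
              have hx' : rel d ξ N x = σ := hx
              rw [← hx'] at hnm
              simp only [rel, mem_filter] at hnm
              exact hnm.2.le
            calc ∫ x in Q σ, d x n m ∂lam ≤ ∫ x in Q σ, ξ ∂lam := by
                  apply setIntegral_mono_on _ _ (hQ σ) this
                  · exact (integrable_of_bdd (hd n m) fun x => hd1 x n m).integrableOn
                  · exact integrableOn_const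
              _ = ξ * lam.real (Q σ) := by
                  rw [setIntegral_const, smul_eq_mul, mul_comm]
          · -- trivial bound
            intro n n'
            calc |∫ ω in w ⁻¹' (Q σ), G n ω * G n' ω ∂P|
                ≤ ∫ ω in w ⁻¹' (Q σ), |G n ω * G n' ω| ∂P := abs_integral_le_integral_abs
              _ ≤ ∫ ω in w ⁻¹' (Q σ), (1 : ℝ) ∂P := by
                  apply integral_mono
                  · apply Integrable.abs
                    exact integrable_of_bdd (C := 1) ((hG n).mul (hG n')) fun ω => by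
                      rw [abs_mul]
                      have h1 := hG1 n ω
                      have h2 := hG1 n' ω
                      have h3 := abs_nonneg (G n ω)
                      have h4 := abs_nonneg (G n' ω)
                      nlinarith
                  · exact integrable_const _
                  · intro ω
                    simp only [abs_mul]
                    have h1 := hG1 n ω
                    have h2 := hG1 n' ω
                    have h3 := abs_nonneg (G n ω)
                    have h4 := abs_nonneg (G n' ω)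
                    nlinarith
              _ = P.real (w ⁻¹' (Q σ)) := by simp
          · -- far apart
            have hfar : ∀ n k, k₀ ≤ k → |∫ ω in w ⁻¹' (Q σ), G n ω * G (n + k) ω ∂P|
                ≤ P.real (w ⁻¹' (Q σ)) * ξ ^ 2 := by
              intro n k hk
              rw [hGG _ (hQ σ) n k, hq, abs_mul, abs_of_nonneg measureReal_nonneg]
              have h1 : lam.real (Q σ ∩ (S^[n] ⁻¹' A ∩ S^[n + k] ⁻¹' A)) ≤ lam.real (Q σ) :=
                measureReal_mono Set.inter_subset_left
              have h2 := hk₀ k hk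
              have h3 : (0 : ℝ) ≤ lam.real (Q σ ∩ (S^[n] ⁻¹' A ∩ S^[n + k] ⁻¹' A)) :=
                measureReal_nonneg
              have h4 := abs_nonneg (ρ k)
              calc _ ≤ lam.real (Q σ) * |ρ k| := mul_le_mul_of_nonneg_right h1 h4
                _ ≤ _ := mul_le_mul_of_nonneg_left h2 measureReal_nonneg
            intro n n' h
            rcases h with h | h
            · obtain ⟨k, rfl⟩ := Nat.exists_eq_add_of_le (show n ≤ n' by omega)
              exact hfar n k (by omega)
            · obtain ⟨k, rfl⟩ := Nat.exists_eq_add_of_le (show n' ≤ n by omega)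
              have := hfar n' k (by omega)
              calc _ = |∫ ω in w ⁻¹' (Q σ), G n' ω * G (n' + k) ω ∂P| := by
                    congr 2
                    funext ω
                    ring
                _ ≤ _ := this
          · intro a b hab
            rw [← hσ] at hab ⊢
            simp only [rel, mem_filter, mem_product] at hab ⊢
            exact ⟨⟨hab.1.2, hab.1.1⟩, by rw [hsym]; exact hab.2⟩
          · intro a ha
            rw [← hσ]
            simp only [rel, mem_filter, mem_product, mem_range]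
            exact ⟨⟨ha, ha⟩, by rw [hdiag]; exact hξ⟩
          · simp [Measure.real]
        · rw [Set.not_nonempty_iff_eq_empty] at hne
          rw [hne]
          simp
      have s3 : ∑ σ ∈ R.powerset, P.real (w ⁻¹' (Q σ)) = 1 := by
        have := split (fun _ => 1) (integrable_const _)
        simp only [integral_const, smul_eq_mul, mul_one, probReal_univ] at this
        rw [this]
        apply Finset.sum_congr rfl
        intro σ _
        simp [Measure.real]
      have s4 : ∑ σ ∈ R.powerset, P.real (w ⁻¹' (Q σ)) * invSum N σ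
          = ∫ x, invSum N (rel d ξ N x) ∂lam := by
        have hm := measurable_invSum (d := d) hd ξ N
        have hbd : ∀ σ : Finset (ℕ × ℕ), |invSum N σ| ≤ N := by
          intro σ
          unfold invSum
          refine (Finset.abs_sum_le_sum_abs _ _).trans ?_
          calc _ ≤ ∑ n ∈ range N, (1 : ℝ) := by
                apply Finset.sum_le_sum
                intro n _
                rw [abs_of_nonneg (by positivity)]
                rcases Nat.eq_zero_or_pos (nb N σ n).card with h | h
                · rw [h]; simp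
                · rw [div_le_one (by exact_mod_cast h)]
                  exact_mod_cast h
            _ = N := by simp
        conv_rhs => rw [← hw.map_eq]
        have hm2 : Measurable fun ω => invSum N (rel d ξ N (w ω)) := hm.comp hw.measurable
        rw [integral_map hw.measurable.aemeasurable hm.aestronglyMeasurable,
          split _ (integrable_of_bdd (f := fun ω => invSum N (rel d ξ N (w ω))) hm2
            fun ω => hbd _)]
        apply Finset.sum_congr rfl
        intro σ _
        have : ∫ ω in w ⁻¹' (Q σ), invSum N (rel d ξ N (w ω)) ∂P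
            = ∫ ω in w ⁻¹' (Q σ), invSum N σ ∂P := by
          apply setIntegral_congr_fun (hw.measurable (hQ σ))
          intro ω hω
          have : rel d ξ N (w ω) = σ := hω
          simp only [this]
        rw [this, setIntegral_const, smul_eq_mul]
      have s5 := invSum_le hd hdiag lam hS hshift hξ N (measurable_invSum hd ξ N)
      calc (N : ℝ) * |I| = |(N : ℝ) * I| := by
            rw [abs_mul, abs_of_nonneg (Nat.cast_nonneg N : (0 : ℝ) ≤ (N : ℝ))]
        _ ≤ ∑ σ ∈ R.powerset, |∑ n ∈ range N, ∫ ω in w ⁻¹' (Q σ), E n ω * G n ω ∂P| := by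
            rw [s1]; exact Finset.abs_sum_le_sum_abs _ _
        _ ≤ ∑ σ ∈ R.powerset,
            P.real (w ⁻¹' (Q σ)) * (ξ * N + ξ * N + ξ * N / 2 + k₀ * invSum N σ / ξ) :=
            Finset.sum_le_sum s2
        _ = (ξ * N + ξ * N + ξ * N / 2) * ∑ σ ∈ R.powerset, P.real (w ⁻¹' (Q σ))
            + k₀ * (∑ σ ∈ R.powerset, P.real (w ⁻¹' (Q σ)) * invSum N σ) / ξ := by
            rw [Finset.mul_sum, Finset.mul_sum, Finset.sum_div, ← Finset.sum_add_distrib]
            apply Finset.sum_congr rfl
            intro σ _
            ring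
        _ ≤ _ := by
            rw [s3, s4, mul_one]
            have : k₀ * (∫ x, invSum N (rel d ξ N x) ∂lam) / ξ
                ≤ k₀ * (∑ L ∈ range N, theta lam d ξ (L + 1)) / ξ := by
              apply div_le_div_of_nonneg_right _ hξ.le
              exact mul_le_mul_of_nonneg_left s5 (Nat.cast_nonneg _)
            linarith
    -- pass to the limit
    have hth : Tendsto (fun N : ℕ => (N : ℝ)⁻¹ * ∑ L ∈ range N, theta lam d ξ (L + 1)) atTop
        (𝓝 0) :=
      ((tendsto_theta hd lam (hrec ξ hξ)).comp (tendsto_add_atTop_nat 1)).cesaro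
    have hth2 : Tendsto (fun N : ℕ =>
        (k₀ : ℝ) / ξ * ((N : ℝ)⁻¹ * ∑ L ∈ range N, theta lam d ξ (L + 1))) atTop (𝓝 0) := by
      have := hth.const_mul ((k₀ : ℝ) / ξ)
      rwa [mul_zero] at this
    obtain ⟨N, hN1, hN2⟩ : ∃ N : ℕ, 0 < N ∧
        (k₀ : ℝ) / ξ * ((N : ℝ)⁻¹ * ∑ L ∈ range N, theta lam d ξ (L + 1)) ≤ ξ := by
      have h1 := (tendsto_order.mp hth2).2 ξ hξ
      obtain ⟨N, h2, h3⟩ := (h1.and (eventually_gt_atTop 0)).exists
      exact ⟨N, h3, h2.le⟩
    have h3 := hest N
    have hN : (0 : ℝ) < N := by exact_mod_cast hN1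
    have h4 : k₀ * (∑ L ∈ range N, theta lam d ξ (L + 1)) / ξ
        = N * ((k₀ : ℝ) / ξ * ((N : ℝ)⁻¹ * ∑ L ∈ range N, theta lam d ξ (L + 1))) := by
      field_simp
    rw [h4] at h3
    have h5 : (N : ℝ) * |I| ≤ N * (4 * ξ) := by nlinarith
    exact le_of_mul_le_mul_left h5 hN
  by_contra hne
  have hpos : 0 < |I| := abs_pos.mpr hne
  have := main (|I| / 8) (by positivity)
  linarith

end

end Pool.Agent.H52J
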