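import Mathlib

/-! Finite averaging lemma: regrouping `N` products along a symmetric closeness relation. -/

set_option linter.style.longLine false
set_option linter.unusedSectionVars false
set_option linter.style.header false

namespace Pool.Agent.H52J

open MeasureTheory Finset

/-- neighbours of `m` below `N` -/
def nb (N : ℕ) (V : Finset (ℕ × ℕ)) (m : ℕ) : Finset ℕ := (range N).filter fun n => (m, n) ∈ V

/-- sum over `n < N` of the inverse number of neighbours of `n` -/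
noncomputable def invSum (N : ℕ) (V : Finset (ℕ × ℕ)) : ℝ := ∑ n ∈ range N, 1 / ((nb N V n).card : ℝ)

section

variable {N : ℕ} {V : Finset (ℕ × ℕ)} (hs : ∀ a b, (a, b) ∈ V → (b, a) ∈ V)
  (hr : ∀ a, a < N → (a, a) ∈ V)

include hr in
lemma nb_pos {n : ℕ} (hn : n < N) : (0 : ℝ) < (nb N V n).card := by
  have : n ∈ nb N V n := by
    simp [nb, hn, hr n hn]
  exact_mod_cast Finset.card_pos.mpr ⟨n, this⟩

include hs in
lemma swap (f : ℕ → ℕ → ℝ) :
    ∑ n ∈ range N, ∑ m ∈ nb N V n, f n m = ∑ m ∈ range N, ∑ n ∈ nb N V m, f n m := by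
  apply Finset.sum_comm'
  intro x y
  simp only [nb, mem_range, mem_filter]
  constructor
  · rintro ⟨h1, h2, h3⟩
    exact ⟨⟨h1, hs _ _ h3⟩, h2⟩
  · rintro ⟨⟨h1, h2⟩, h3⟩
    exact ⟨h1, h3, hs _ _ h2⟩

include hr in
lemma sum_const_nb (f : ℕ → ℝ) :
    ∑ n ∈ range N, f n = ∑ n ∈ range N, ∑ _m ∈ nb N V n, (1 / ((nb N V n).card : ℝ)) * f n := by
  apply Finset.sum_congr rfl
  intro n hn
  rw [Finset.sum_const, nsmul_eq_mul, ← mul_assoc]
  have := nb_pos hr (mem_range.mp hn)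
  rw [mul_one_div_cancel this.ne', one_mul]

include hs hr in
lemma sum_s : ∑ m ∈ range N, ∑ n ∈ nb N V m, (1 / ((nb N V n).card : ℝ)) = N := by
  rw [← swap hs (fun n _ => (1 / ((nb N V n).card : ℝ)))]
  have := sum_const_nb hr (fun _ => (1 : ℝ))
  simp only [mul_one] at this
  rw [← this]
  simp

include hs hr in
lemma sum_t : ∑ m ∈ range N, ∑ n ∈ nb N V m, (1 / ((nb N V n).card : ℝ)) ^ 2 = invSum N V := by
  rw [← swap hs (fun n _ => (1 / ((nb N V n).card : ℝ)) ^ 2)]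
  unfold invSum
  apply Finset.sum_congr rfl
  intro n hn
  rw [Finset.sum_const, nsmul_eq_mul]
  have := nb_pos hr (mem_range.mp hn)
  field_simp

lemma near_card (k₀ n : ℕ) (A : Finset ℕ) :
    ((A.filter fun n' => n' < n + k₀ ∧ n < n' + k₀).card : ℝ) ≤ 2 * k₀ := by
  have h : (A.filter fun n' => n' < n + k₀ ∧ n < n' + k₀) ⊆ (Ico (n + 1 - k₀) (n + k₀)) := by
    intro x hx
    simp only [mem_filter] at hx
    simp only [mem_Ico]
    omega
  have h2 := Finset.card_le_card h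
  rw [Nat.card_Ico] at h2
  have h3 : (A.filter fun n' => n' < n + k₀ ∧ n < n' + k₀).card ≤ 2 * k₀ := by omega
  exact_mod_cast h3

/-- the near diagonal part of the square of a sum -/
lemma near_sum (k₀ : ℕ) (A : Finset ℕ) (b : ℕ → ℝ) :
    ∑ n ∈ A, ∑ n' ∈ A, (if n' < n + k₀ ∧ n < n' + k₀ then |b n| * |b n'| else 0)
      ≤ 2 * k₀ * ∑ n ∈ A, b n ^ 2 := by
  have h1 : ∀ n n', (if n' < n + k₀ ∧ n < n' + k₀ then |b n| * |b n'| else 0)
      ≤ (if n' < n + k₀ ∧ n < n' + k₀ then b n ^ 2 / 2 else 0)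
        + (if n' < n + k₀ ∧ n < n' + k₀ then b n' ^ 2 / 2 else 0) := by
    intro n n'
    split_ifs
    · have := sq_nonneg (|b n| - |b n'|)
      have h3 := sq_abs (b n)
      have h4 := sq_abs (b n')
      nlinarith
    · simp
  have h2 : ∑ n ∈ A, ∑ n' ∈ A, (if n' < n + k₀ ∧ n < n' + k₀ then b n ^ 2 / 2 else 0)
      ≤ k₀ * ∑ n ∈ A, b n ^ 2 := by
    rw [Finset.mul_sum]
    apply Finset.sum_le_sum
    intro n _
    rw [← Finset.sum_filter, Finset.sum_const, nsmul_eq_mul]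
    have := near_card k₀ n A
    have hb := sq_nonneg (b n)
    nlinarith
  have h3 : ∑ n ∈ A, ∑ n' ∈ A, (if n' < n + k₀ ∧ n < n' + k₀ then b n' ^ 2 / 2 else 0)
      ≤ k₀ * ∑ n ∈ A, b n ^ 2 := by
    rw [Finset.sum_comm]
    calc _ = ∑ n ∈ A, ∑ n' ∈ A, (if n' < n + k₀ ∧ n < n' + k₀ then b n ^ 2 / 2 else 0) := by
          apply Finset.sum_congr rfl
          intro n _
          apply Finset.sum_congr rfl
          intro n' _
          congr 1
          exact propext ⟨fun h => ⟨h.2, h.1⟩, fun h => ⟨h.2, h.1⟩⟩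
      _ ≤ _ := h2
  calc _ ≤ ∑ n ∈ A, ∑ n' ∈ A, ((if n' < n + k₀ ∧ n < n' + k₀ then b n ^ 2 / 2 else 0)
        + (if n' < n + k₀ ∧ n < n' + k₀ then b n' ^ 2 / 2 else 0)) :=
        Finset.sum_le_sum fun n _ => Finset.sum_le_sum fun n' _ => h1 n n'
    _ = ∑ n ∈ A, ∑ n' ∈ A, (if n' < n + k₀ ∧ n < n' + k₀ then b n ^ 2 / 2 else 0)
        + ∑ n ∈ A, ∑ n' ∈ A, (if n' < n + k₀ ∧ n < n' + k₀ then b n' ^ 2 / 2 else 0) := by
        simp only [Finset.sum_add_distrib]
    _ ≤ _ := by linarith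

end

section

variable {Ω : Type*} [MeasurableSpace Ω] {P : Measure Ω} [IsFiniteMeasure P]

lemma integrable_of_bdd {f : Ω → ℝ} (hf : Measurable f) {C : ℝ} (h : ∀ ω, |f ω| ≤ C) :
    Integrable f P :=
  Integrable.of_bound hf.aestronglyMeasurable C (Filter.Eventually.of_forall fun ω => by
    rw [Real.norm_eq_abs]; exact h ω)

lemma second (A : Finset ℕ) {b : ℕ → ℝ} (hb : ∀ n, 0 ≤ b n) {g : ℕ → Ω → ℝ}
    (hg : ∀ n, Measurable (g n)) (hg1 : ∀ n ω, |g n ω| ≤ 1) {η q : ℝ} {k₀ : ℕ} (hq : 0 ≤ q)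
    (hρ1 : ∀ n ∈ A, ∀ n' ∈ A, |∫ ω, g n ω * g n' ω ∂P| ≤ q)
    (hρ2 : ∀ n ∈ A, ∀ n' ∈ A, n + k₀ ≤ n' ∨ n' + k₀ ≤ n → |∫ ω, g n ω * g n' ω ∂P| ≤ q * η ^ 2) :
    ∫ ω, (∑ n ∈ A, b n * g n ω) ^ 2 ∂P
      ≤ q * (η ^ 2 * (∑ n ∈ A, b n) ^ 2 + 2 * k₀ * ∑ n ∈ A, b n ^ 2) := by
  have hint : ∀ n n', Integrable (fun ω => g n ω * g n' ω) P := fun n n' =>
    integrable_of_bdd (C := 1) ((hg n).mul (hg n')) fun ω => by
      rw [abs_mul]
      have h1 := hg1 n ω
      have h2 := hg1 n' ω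
      have h3 := abs_nonneg (g n ω)
      have h4 := abs_nonneg (g n' ω)
      nlinarith
  have e1 : ∀ ω, (∑ n ∈ A, b n * g n ω) ^ 2
      = ∑ n ∈ A, ∑ n' ∈ A, (b n * b n') * (g n ω * g n' ω) := by
    intro ω
    rw [sq, Finset.sum_mul_sum]
    apply Finset.sum_congr rfl
    intro n _
    apply Finset.sum_congr rfl
    intro n' _
    ring
  have e2 : ∫ ω, (∑ n ∈ A, b n * g n ω) ^ 2 ∂P
      = ∑ n ∈ A, ∑ n' ∈ A, (b n * b n') * ∫ ω, g n ω * g n' ω ∂P := by
    simp only [e1]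
    rw [integral_finsetSum _ (fun n _ => integrable_finsetSum _ fun n' _ => (hint n n').const_mul _)]
    apply Finset.sum_congr rfl
    intro n _
    rw [integral_finsetSum _ (fun n' _ => (hint n n').const_mul _)]
    apply Finset.sum_congr rfl
    intro n' _
    rw [integral_const_mul]
  rw [e2]
  calc ∑ n ∈ A, ∑ n' ∈ A, (b n * b n') * ∫ ω, g n ω * g n' ω ∂P
      ≤ ∑ n ∈ A, ∑ n' ∈ A, (q * η ^ 2 * (b n * b n')
          + q * (if n' < n + k₀ ∧ n < n' + k₀ then |b n| * |b n'| else 0)) := by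
        apply Finset.sum_le_sum
        intro n hn
        apply Finset.sum_le_sum
        intro n' hn'
        have hbb : 0 ≤ b n * b n' := mul_nonneg (hb n) (hb n')
        split_ifs with h
        · have h1 := le_of_abs_le (hρ1 n hn n' hn')
          rw [abs_of_nonneg (hb n), abs_of_nonneg (hb n')]
          have h2 : 0 ≤ q * η ^ 2 * (b n * b n') := by positivity
          nlinarith
        · have h1 := le_of_abs_le (hρ2 n hn n' hn' (by omega))
          nlinarith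
    _ = q * (η ^ 2 * (∑ n ∈ A, b n) ^ 2)
          + q * ∑ n ∈ A, ∑ n' ∈ A, (if n' < n + k₀ ∧ n < n' + k₀ then |b n| * |b n'| else 0) := by
        simp only [Finset.sum_add_distrib, ← Finset.mul_sum]
        rw [sq (∑ n ∈ A, b n), Finset.sum_mul_sum]
        simp only [Finset.mul_sum]
        congr 1
        apply Finset.sum_congr rfl
        intro n _
        apply Finset.sum_congr rfl
        intro n' _
        ring
    _ ≤ q * (η ^ 2 * (∑ n ∈ A, b n) ^ 2) + q * (2 * k₀ * ∑ n ∈ A, b n ^ 2) := by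
        have := near_sum k₀ A b
        have h2 := mul_le_mul_of_nonneg_left this hq
        linarith
    _ = _ := by ring

lemma alg {c η s κ t q k : ℝ} (hq0 : 0 ≤ q) (hη : 0 < η) (hκ : 0 < κ) (hs0 : 0 ≤ s)
    (ht0 : 0 ≤ t) (hk : 0 ≤ k) (hc : c = η * s + κ) :
    c / 2 * q + q * (η ^ 2 * s ^ 2 + 2 * k * t) / (2 * c) ≤ q * (η * s + κ / 2 + k * t / κ) := by
  have hes : 0 ≤ η * s := by positivity
  have hc0 : 0 < c := by rw [hc]; positivity
  have h1 : η ^ 2 * s ^ 2 / (2 * c) ≤ η * s / 2 := by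
    rw [div_le_div_iff₀ (by positivity) (by norm_num)]
    have h2 : η * s ≤ c := by rw [hc]; linarith
    have h3 : (η * s) * (η * s) ≤ (η * s) * c := mul_le_mul_of_nonneg_left h2 hes
    have e1 : η ^ 2 * s ^ 2 * 2 = 2 * ((η * s) * (η * s)) := by ring
    have e2 : η * s * (2 * c) = 2 * ((η * s) * c) := by ring
    rw [e1, e2]
    linarith
  have h2 : k * t / c ≤ k * t / κ := by
    have h3 : κ ≤ c := by rw [hc]; linarith
    exact div_le_div_of_nonneg_left (by positivity) hκ h3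
  have h3 : c / 2 * q + q * (η ^ 2 * s ^ 2 + 2 * k * t) / (2 * c)
      = q * (c / 2 + η ^ 2 * s ^ 2 / (2 * c) + k * t / c) := by
    field_simp
    ring
  rw [h3]
  apply mul_le_mul_of_nonneg_left _ hq0
  have h4 : c / 2 = η * s / 2 + κ / 2 := by rw [hc]; ring
  linarith

lemma part2 (A : Finset ℕ) {b : ℕ → ℝ} (hb : ∀ n, 0 ≤ b n) {f : Ω → ℝ} (hf : Measurable f)
    (hf1 : ∀ ω, |f ω| ≤ 1) {g : ℕ → Ω → ℝ}
    (hg : ∀ n, Measurable (g n)) (hg1 : ∀ n ω, |g n ω| ≤ 1) {η κ q : ℝ} {k₀ : ℕ}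
    (hq : q = P.real Set.univ) (hη : 0 < η) (hκ : 0 < κ)
    (hρ1 : ∀ n n', |∫ ω, g n ω * g n' ω ∂P| ≤ q)
    (hρ2 : ∀ n n', n + k₀ ≤ n' ∨ n' + k₀ ≤ n → |∫ ω, g n ω * g n' ω ∂P| ≤ q * η ^ 2) :
    |∑ n ∈ A, b n * ∫ ω, f ω * g n ω ∂P|
      ≤ q * (η * ∑ n ∈ A, b n + κ / 2 + k₀ * (∑ n ∈ A, b n ^ 2) / κ) := by
  have hq0 : 0 ≤ q := by rw [hq]; exact measureReal_nonneg
  obtain ⟨s, hsdef⟩ : ∃ s, s = ∑ n ∈ A, b n := ⟨_, rfl⟩
  obtain ⟨t, htdef⟩ : ∃ t, t = ∑ n ∈ A, b n ^ 2 := ⟨_, rfl⟩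
  obtain ⟨G, hG⟩ : ∃ G : Ω → ℝ, G = fun ω => ∑ n ∈ A, b n * g n ω := ⟨_, rfl⟩
  have hs0 : 0 ≤ s := by rw [hsdef]; exact Finset.sum_nonneg fun n _ => hb n
  have ht0 : 0 ≤ t := by rw [htdef]; exact Finset.sum_nonneg fun n _ => sq_nonneg _
  obtain ⟨c, hc⟩ : ∃ c, c = η * s + κ := ⟨_, rfl⟩
  have hc0 : 0 < c := by
    rw [hc]
    have : 0 ≤ η * s := mul_nonneg hη.le hs0
    linarith
  have hGm : Measurable G := by
    rw [hG]
    exact Finset.measurable_fun_sum _ fun n _ => (hg n).const_mul _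
  have hGb : ∀ ω, |G ω| ≤ s := by
    intro ω
    rw [hG, hsdef]
    calc |∑ n ∈ A, b n * g n ω| ≤ ∑ n ∈ A, |b n * g n ω| := Finset.abs_sum_le_sum_abs _ _
      _ ≤ ∑ n ∈ A, b n := by
        apply Finset.sum_le_sum
        intro n _
        rw [abs_mul, abs_of_nonneg (hb n)]
        have := hg1 n ω
        have h2 := hb n
        nlinarith
  have hG2 : Integrable (fun ω => G ω ^ 2) P :=
    integrable_of_bdd (C := s ^ 2) (hGm.pow_const 2) fun ω => by
      rw [abs_pow]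
      exact pow_le_pow_left₀ (abs_nonneg _) (hGb ω) 2
  have hfg : ∀ n, Integrable (fun ω => f ω * g n ω) P := fun n =>
    integrable_of_bdd (C := 1) (hf.mul (hg n)) fun ω => by
      rw [abs_mul]
      have h1 := hf1 ω
      have h2 := hg1 n ω
      have h3 := abs_nonneg (f ω)
      have h4 := abs_nonneg (g n ω)
      nlinarith
  have i1 : ∑ n ∈ A, b n * ∫ ω, f ω * g n ω ∂P = ∫ ω, f ω * G ω ∂P := by
    rw [hG]
    simp only [Finset.mul_sum]
    rw [integral_finsetSum]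
    · apply Finset.sum_congr rfl
      intro n _
      rw [← integral_const_mul]
      congr 1
      funext ω
      ring
    · intro n _
      have : (fun ω => f ω * (b n * g n ω)) = fun ω => b n * (f ω * g n ω) := by
        funext ω; ring
      rw [this]
      exact (hfg n).const_mul _
  have hsec : ∫ ω, G ω ^ 2 ∂P ≤ q * (η ^ 2 * s ^ 2 + 2 * k₀ * t) := by
    have := second (P := P) A hb hg hg1 (η := η) (k₀ := k₀) hq0
      (fun n _ n' _ => hρ1 n n') (fun n _ n' _ h => hρ2 n n' h)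
    rw [← hsdef, ← htdef] at this
    rw [hG]
    exact this
  rw [i1, ← hsdef, ← htdef]
  have j1 : |∫ ω, f ω * G ω ∂P| ≤ ∫ ω, (c / 2 + G ω ^ 2 / (2 * c)) ∂P := by
    refine abs_integral_le_integral_abs.trans ?_
    apply integral_mono
    · apply Integrable.abs
      apply integrable_of_bdd (C := s) (hf.mul hGm)
      intro ω
      rw [Pi.mul_apply, abs_mul]
      have h1 := hf1 ω
      have h2 := hGb ω
      have h3 := abs_nonneg (f ω)
      have h4 := abs_nonneg (G ω)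
      nlinarith
    · exact (integrable_const _).add (hG2.div_const _)
    · intro ω
      show |f ω * G ω| ≤ c / 2 + G ω ^ 2 / (2 * c)
      rw [abs_mul]
      have h1 := hf1 ω
      have h4 := abs_nonneg (G ω)
      have h5 : |f ω| * |G ω| ≤ |G ω| := by nlinarith
      refine h5.trans ?_
      have h6 : c / 2 + G ω ^ 2 / (2 * c) - |G ω| = (c - |G ω|) ^ 2 / (2 * c) := by
        rw [← sq_abs (G ω)]
        field_simp
        ring
      have h7 : 0 ≤ (c - |G ω|) ^ 2 / (2 * c) := by positivity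
      linarith
  have j2 : ∫ ω, (c / 2 + G ω ^ 2 / (2 * c)) ∂P
      = c / 2 * q + (∫ ω, G ω ^ 2 ∂P) / (2 * c) := by
    rw [integral_add (integrable_const _) (hG2.div_const _), integral_const, integral_div,
      smul_eq_mul, hq]
    ring
  have j3 : (∫ ω, G ω ^ 2 ∂P) / (2 * c) ≤ q * (η ^ 2 * s ^ 2 + 2 * k₀ * t) / (2 * c) :=
    div_le_div_of_nonneg_right hsec (by positivity)
  have j4 := alg (k := (k₀ : ℝ)) hq0 hη hκ hs0 ht0 (Nat.cast_nonneg _) hc
  linarith

/-- the averaging estimate on an event on which the closeness relation is constant -/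
lemma det {N : ℕ} {V : Finset (ℕ × ℕ)} (hs : ∀ a b, (a, b) ∈ V → (b, a) ∈ V)
    (hr : ∀ a, a < N → (a, a) ∈ V) {e g : ℕ → Ω → ℝ} (he : ∀ n, Measurable (e n))
    (he1 : ∀ n ω, |e n ω| ≤ 1)
    (hg : ∀ n, Measurable (g n)) (hg1 : ∀ n ω, |g n ω| ≤ 1) {ε η κ q : ℝ} {k₀ : ℕ}
    (hq : q = P.real Set.univ) (hη : 0 < η) (hκ : 0 < κ)
    (hV : ∀ n < N, ∀ m < N, (n, m) ∈ V → ∫ ω, |e n ω - e m ω| ∂P ≤ ε * q)
    (hρ1 : ∀ n n', |∫ ω, g n ω * g n' ω ∂P| ≤ q)
    (hρ2 : ∀ n n', n + k₀ ≤ n' ∨ n' + k₀ ≤ n → |∫ ω, g n ω * g n' ω ∂P| ≤ q * η ^ 2) :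
    |∑ n ∈ range N, ∫ ω, e n ω * g n ω ∂P|
      ≤ q * (ε * N + η * N + κ * N / 2 + k₀ * invSum N V / κ) := by
  have hq0 : 0 ≤ q := by rw [hq]; positivity
  set b : ℕ → ℝ := fun n => 1 / ((nb N V n).card : ℝ) with hbdef
  have hb : ∀ n, 0 ≤ b n := fun n => by rw [hbdef]; positivity
  have heg : ∀ n m, Integrable (fun ω => e n ω * g m ω) P := fun n m =>
    integrable_of_bdd (C := 1) ((he n).mul (hg m)) fun ω => by
      rw [abs_mul]
      have h1 := he1 n ω
      have h2 := hg1 m ω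
      have h3 := abs_nonneg (e n ω)
      have h4 := abs_nonneg (g m ω)
      nlinarith
  -- regroup
  have r1 : ∑ n ∈ range N, ∫ ω, e n ω * g n ω ∂P
      = ∑ m ∈ range N, ∑ n ∈ nb N V m, b n * ∫ ω, e n ω * g n ω ∂P := by
    rw [sum_const_nb hr, swap hs (fun n _ => b n * ∫ ω, e n ω * g n ω ∂P)]
  have r2 : ∀ m n, ∫ ω, e n ω * g n ω ∂P
      = ∫ ω, (e n ω - e m ω) * g n ω ∂P + ∫ ω, e m ω * g n ω ∂P := by
    intro m n
    rw [← integral_add]
    · congr 1
      funext ω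
      ring
    · simp only [sub_mul]
      exact (heg n n).sub (heg m n)
    · exact heg m n
  have r3 : ∑ n ∈ range N, ∫ ω, e n ω * g n ω ∂P
      = ∑ m ∈ range N, ∑ n ∈ nb N V m, b n * ∫ ω, (e n ω - e m ω) * g n ω ∂P
        + ∑ m ∈ range N, ∑ n ∈ nb N V m, b n * ∫ ω, e m ω * g n ω ∂P := by
    rw [r1, ← Finset.sum_add_distrib]
    apply Finset.sum_congr rfl
    intro m _
    rw [← Finset.sum_add_distrib]
    apply Finset.sum_congr rfl
    intro n _
    rw [r2 m n]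
    ring
  -- first part
  have p1 : |∑ m ∈ range N, ∑ n ∈ nb N V m, b n * ∫ ω, (e n ω - e m ω) * g n ω ∂P|
      ≤ q * (ε * N) := by
    calc _ ≤ ∑ m ∈ range N, |∑ n ∈ nb N V m, b n * ∫ ω, (e n ω - e m ω) * g n ω ∂P| :=
          Finset.abs_sum_le_sum_abs _ _
      _ ≤ ∑ m ∈ range N, ∑ n ∈ nb N V m, |b n * ∫ ω, (e n ω - e m ω) * g n ω ∂P| :=
          Finset.sum_le_sum fun m _ => Finset.abs_sum_le_sum_abs _ _
      _ ≤ ∑ m ∈ range N, ∑ n ∈ nb N V m, b n * (ε * q) := by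
          apply Finset.sum_le_sum
          intro m hm
          apply Finset.sum_le_sum
          intro n hn
          rw [abs_mul, abs_of_nonneg (hb n)]
          apply mul_le_mul_of_nonneg_left _ (hb n)
          simp only [nb, mem_filter, mem_range] at hn
          calc |∫ ω, (e n ω - e m ω) * g n ω ∂P| ≤ ∫ ω, |(e n ω - e m ω) * g n ω| ∂P :=
                abs_integral_le_integral_abs
            _ ≤ ∫ ω, |e n ω - e m ω| ∂P := by
                apply integral_mono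
                · apply Integrable.abs
                  simp only [sub_mul]
                  exact (heg n n).sub (heg m n)
                · exact ((integrable_of_bdd (he n) (he1 n)).sub
                    (integrable_of_bdd (he m) (he1 m))).abs
                · intro ω
                  simp only [abs_mul]
                  have h1 := hg1 n ω
                  have h2 := abs_nonneg (e n ω - e m ω)
                  nlinarith
            _ ≤ ε * q := hV n hn.1 m (mem_range.mp hm) (hs _ _ hn.2)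
      _ = q * (ε * N) := by
          have := sum_s hs hr
          simp only [← Finset.sum_mul]
          rw [hbdef]
          simp only
          rw [this]
          ring
  -- second part
  have p2 : ∀ m ∈ range N, |∑ n ∈ nb N V m, b n * ∫ ω, e m ω * g n ω ∂P|
      ≤ q * (η * ∑ n ∈ nb N V m, b n + κ / 2 + k₀ * (∑ n ∈ nb N V m, b n ^ 2) / κ) :=
    fun m _ => part2 (nb N V m) hb (he m) (he1 m) hg hg1 hq hη hκ hρ1 hρ2
  have p3 : |∑ m ∈ range N, ∑ n ∈ nb N V m, b n * ∫ ω, e m ω * g n ω ∂P|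
      ≤ q * (η * N + κ * N / 2 + k₀ * invSum N V / κ) := by
    calc _ ≤ ∑ m ∈ range N, |∑ n ∈ nb N V m, b n * ∫ ω, e m ω * g n ω ∂P| :=
          Finset.abs_sum_le_sum_abs _ _
      _ ≤ ∑ m ∈ range N,
          q * (η * ∑ n ∈ nb N V m, b n + κ / 2 + k₀ * (∑ n ∈ nb N V m, b n ^ 2) / κ) :=
          Finset.sum_le_sum p2
      _ = _ := by
          have a1 : ∑ m ∈ range N, ∑ n ∈ nb N V m, b n = N := sum_s hs hr
          have a2 : ∑ m ∈ range N, ∑ n ∈ nb N V m, b n ^ 2 = invSum N V := sum_t hs hr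
          rw [← Finset.mul_sum, Finset.sum_add_distrib, Finset.sum_add_distrib, ← Finset.mul_sum,
            a1, ← Finset.sum_div, ← Finset.sum_div, ← Finset.mul_sum, a2, Finset.sum_const,
            Finset.card_range, nsmul_eq_mul]
          ring
  rw [r3]
  calc _ ≤ _ + _ := abs_add_le _ _
    _ ≤ q * (ε * N) + q * (η * N + κ * N / 2 + k₀ * invSum N V / κ) := add_le_add p1 p3
    _ = _ := by ring

end

end Pool.Agent.H52J
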