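import Pool.Agent.H52J.Core

/-! Skew products: return distances and their properties. -/

set_option linter.style.longLine false
set_option linter.unusedSectionVars false
set_option linter.style.header false

namespace Pool.Agent.H52J

open MeasureTheory Filter Topology

variable {W F : Type*} [MeasurableSpace W] [MeasurableSpace F]

/-- the skew product `(w, f) ↦ (T₀ w, φ w f)` -/
def skew (T₀ : W → W) (φ : W → F → F) : W × F → W × F := fun x => (T₀ x.1, φ x.1 x.2)

lemma skew_iter_fst (T₀ : W → W) (φ : W → F → F) (n : ℕ) (x : W × F) :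
    ((skew T₀ φ)^[n] x).1 = T₀^[n] x.1 := by
  induction n generalizing x with
  | zero => rfl
  | succ n ih => rw [Function.iterate_succ_apply, Function.iterate_succ_apply, ih]; rfl

section

variable {lam : Measure W} [IsProbabilityMeasure lam] {m : Measure F} [IsProbabilityMeasure m]
  {T₀ : W → W} {φ : W → F → F}

lemma measurable_skew (hT₀ : MeasurePreserving T₀ lam lam)
    (hφ : Measurable (Function.uncurry φ)) : Measurable (skew T₀ φ) :=
  (hT₀.measurable.comp measurable_fst).prodMk hφ

lemma measurePreserving_skew (hT₀ : MeasurePreserving T₀ lam lam)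
    (hφ : Measurable (Function.uncurry φ)) (hφm : ∀ w, MeasurePreserving (φ w) m m) :
    MeasurePreserving (skew T₀ φ) (lam.prod m) (lam.prod m) :=
  hT₀.skew_product hφ (Eventually.of_forall fun w => (hφm w).map_eq)

/-- the fibre map of the `n`-th iterate preserves the measure -/
lemma fibre_iter (hφm : ∀ w, MeasurePreserving (φ w) m m) (n : ℕ) (w : W) :
    MeasurePreserving (fun f => ((skew T₀ φ)^[n] (w, f)).2) m m := by
  induction n generalizing w with
  | zero => exact MeasurePreserving.id m
  | succ n ih =>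
    have : (fun f => ((skew T₀ φ)^[n + 1] (w, f)).2)
        = (fun f => ((skew T₀ φ)^[n] (T₀ w, f)).2) ∘ φ w := by
      funext f
      rw [Function.iterate_succ_apply]
      rfl
    rw [this]
    exact (ih (T₀ w)).comp (hφm w)

/-- points on which the iterates `n` and `k` differ with respect to `B` in the fibre -/
def diffSet (T₀ : W → W) (φ : W → F → F) (B : Set F) (n k : ℕ) : Set (W × F) :=
  {x | ¬(((skew T₀ φ)^[n] x).2 ∈ B ↔ ((skew T₀ φ)^[k] x).2 ∈ B)}

lemma measurableSet_diffSet (hm : Measurable (skew T₀ φ)) {B : Set F} (hB : MeasurableSet B)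
    (n k : ℕ) : MeasurableSet (diffSet T₀ φ B n k) := by
  have h : ∀ n, MeasurableSet {x : W × F | ((skew T₀ φ)^[n] x).2 ∈ B} := fun n =>
    measurable_snd.comp (hm.iterate n) hB
  have : diffSet T₀ φ B n k = ({x | ((skew T₀ φ)^[n] x).2 ∈ B} \ {x | ((skew T₀ φ)^[k] x).2 ∈ B})
      ∪ ({x | ((skew T₀ φ)^[k] x).2 ∈ B} \ {x | ((skew T₀ φ)^[n] x).2 ∈ B}) := by
    ext x
    simp only [diffSet, Set.mem_ofPred_eq, Set.mem_union, Set.mem_sdiff]
    tauto
  rw [this]
  exact ((h n).diff (h k)).union ((h k).diff (h n))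

/-- the return distances -/
noncomputable def dd (m : Measure F) (T₀ : W → W) (φ : W → F → F) (B : Set F)
    (w : W) (n k : ℕ) : ℝ := m.real (Prod.mk w ⁻¹' diffSet T₀ φ B n k)

lemma measurable_dd (hm : Measurable (skew T₀ φ)) {B : Set F} (hB : MeasurableSet B)
    (n k : ℕ) : Measurable fun w => dd m T₀ φ B w n k :=
  (measurable_measure_prodMk_left (measurableSet_diffSet hm hB n k)).ennreal_toReal

lemma dd_symm (B : Set F) (w : W) (n k : ℕ) : dd m T₀ φ B w n k = dd m T₀ φ B w k n := by
  unfold dd diffSet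
  congr 2
  ext x
  simp only [Set.mem_ofPred_eq]
  tauto

lemma dd_diag (B : Set F) (w : W) (n : ℕ) : dd m T₀ φ B w n n = 0 := by
  unfold dd diffSet
  simp

lemma dd_le (B : Set F) (w : W) (n k : ℕ) : |dd m T₀ φ B w n k| ≤ 1 := by
  unfold dd
  rw [abs_of_nonneg measureReal_nonneg]
  exact measureReal_le_one

lemma dd_shift (hm : Measurable (skew T₀ φ)) (hφm : ∀ w, MeasurePreserving (φ w) m m)
    {B : Set F} (hB : MeasurableSet B)
    (w : W) (n k : ℕ) : dd m T₀ φ B w n (n + k) = dd m T₀ φ B (T₀^[n] w) 0 k := by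
  unfold dd
  have h : Prod.mk w ⁻¹' diffSet T₀ φ B n (n + k)
      = (fun f => ((skew T₀ φ)^[n] (w, f)).2) ⁻¹' (Prod.mk (T₀^[n] w) ⁻¹' diffSet T₀ φ B 0 k) := by
    ext f
    simp only [Set.mem_preimage, diffSet, Set.mem_ofPred_eq, Function.iterate_zero, id]
    have e : (skew T₀ φ)^[n] (w, f) = (T₀^[n] w, ((skew T₀ φ)^[n] (w, f)).2) :=
      Prod.ext (skew_iter_fst T₀ φ n (w, f)) rfl
    rw [add_comm, Function.iterate_add_apply, ← e]
  rw [h, measureReal_def, measureReal_def,
    (fibre_iter hφm n w).measure_preimage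
      (measurable_prodMk_left (measurableSet_diffSet hm hB 0 k)).nullMeasurableSet]

lemma integral_dd (hm : Measurable (skew T₀ φ)) {B : Set F} (hB : MeasurableSet B)
    {A : Set W} (hA : MeasurableSet A) (n k : ℕ) :
    ∫ w in A, dd m T₀ φ B w n k ∂lam
      = (lam.prod m).real ((Prod.fst ⁻¹' A) ∩ diffSet T₀ φ B n k) := by
  have hD := measurableSet_diffSet hm hB n k
  have hAp : MeasurableSet (Prod.fst ⁻¹' A : Set (W × F)) := measurable_fst hA
  rw [measureReal_def, Measure.prod_apply (hAp.inter hD), ← integral_indicator hA]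
  have e : ∀ w, m (Prod.mk w ⁻¹' ((Prod.fst ⁻¹' A) ∩ diffSet T₀ φ B n k))
      = A.indicator (fun w => m (Prod.mk w ⁻¹' diffSet T₀ φ B n k)) w := by
    intro w
    by_cases h : w ∈ A
    · rw [Set.indicator_of_mem h]
      congr 1
      ext f
      simp [h]
    · rw [Set.indicator_of_notMem h]
      have : Prod.mk w ⁻¹' ((Prod.fst ⁻¹' A) ∩ diffSet T₀ φ B n k) = ∅ := by
        ext f
        simp [h]
      rw [this, measure_empty]
  rw [← integral_toReal]
  · apply integral_congr_ae
    filter_upwards with w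
    rw [e w]
    by_cases h : w ∈ A
    · rw [Set.indicator_of_mem h, Set.indicator_of_mem h]
      rfl
    · rw [Set.indicator_of_notMem h, Set.indicator_of_notMem h]
      rfl
  · exact (measurable_measure_prodMk_left (hAp.inter hD)).aemeasurable
  · filter_upwards with w
    exact measure_lt_top _ _

end

end Pool.Agent.H52J
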