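import Pool.Agent.H52J.Skew

/-! One coordinate at a time. -/

set_option linter.style.longLine false
set_option linter.unusedSectionVars false
set_option linter.style.header false

namespace Pool.Agent.H52J

open MeasureTheory Filter Topology

variable {W F : Type*} [MeasurableSpace W] [MeasurableSpace F]

/-- the sets `D i` are measurable and those with index `≥ K` are cylinders over the base -/
def Good {n : ℕ} (K : ℕ) (D : Fin n → Set (W × F)) : Prop :=
  ∀ i, MeasurableSet (D i) ∧ (K ≤ i.1 → ∃ A : Set W, MeasurableSet A ∧ D i = Prod.fst ⁻¹' A)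

section

variable {lam : Measure W} [IsProbabilityMeasure lam] {m : Measure F} [IsProbabilityMeasure m]
  {T₀ : W → W} {φ : W → F → F}

/-- the product formula for good families -/
def Formula {n : ℕ} (μ : Measure (W × F)) (ν : Measure (Fin n → W × F)) (K : ℕ) : Prop :=
  ∀ D : Fin n → Set (W × F), Good K D → ν (Set.pi Set.univ D) = ∏ i, μ (D i)

lemma iter_pi {n : ℕ} (T : W × F → W × F) (j : ℕ) (ω : Fin n → W × F) (i : Fin n) :
    ((fun (x : Fin n → W × F) i => T (x i))^[j] ω) i = T^[j] (ω i) := by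
  induction j generalizing ω with
  | zero => rfl
  | succ j ih => rw [Function.iterate_succ_apply, Function.iterate_succ_apply, ih]

/-- `T^{-n} D ∩ T^{-k} D` for the coordinates `≠ k₁`, a cylinder at `k₁` -/
lemma formula_pair {n K : ℕ} (hT₀ : MeasurePreserving T₀ lam lam)
    (hφ : Measurable (Function.uncurry φ)) (hφm : ∀ w, MeasurePreserving (φ w) m m)
    {ν : Measure (Fin n → W × F)} (hF : Formula (lam.prod m) ν K)
    {k₁ : Fin n} (hk₁ : k₁.1 = K) {D : Fin n → Set (W × F)} (hD : Good (K + 1) D)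
    {A : Set W} (hA : MeasurableSet A) (a b : ℕ) :
    ν ({ω | (ω k₁).1 ∈ A} ∩ {ω | ∀ i, i ≠ k₁ → (skew T₀ φ)^[a] (ω i) ∈ D i}
        ∩ {ω | ∀ i, i ≠ k₁ → (skew T₀ φ)^[a + b] (ω i) ∈ D i})
      = lam A * ∏ i ∈ Finset.univ.erase k₁,
          (lam.prod m) (D i ∩ (skew T₀ φ)^[b] ⁻¹' (D i)) := by
  classical
  have hm := measurable_skew (φ := φ) hT₀ hφ
  have hmp := measurePreserving_skew hT₀ hφ hφm
  let D' : Fin n → Set (W × F) := fun i => if i = k₁ then Prod.fst ⁻¹' A
    else (skew T₀ φ)^[a] ⁻¹' (D i) ∩ (skew T₀ φ)^[a + b] ⁻¹' (D i)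
  have hG : Good K D' := by
    intro i
    by_cases hi : i = k₁
    · simp only [D', hi, if_true]
      exact ⟨measurable_fst hA, fun _ => ⟨A, hA, rfl⟩⟩
    · simp only [D', hi, if_false]
      refine ⟨((hm.iterate a) (hD i).1).inter ((hm.iterate (a + b)) (hD i).1), fun h => ?_⟩
      have hne : i.1 ≠ K := fun h2 => hi (Fin.ext (h2.trans hk₁.symm))
      obtain ⟨B, hB, hDB⟩ := (hD i).2 (by omega)
      refine ⟨T₀^[a] ⁻¹' B ∩ T₀^[a + b] ⁻¹' B,
        ((hT₀.measurable.iterate a) hB).inter ((hT₀.measurable.iterate (a + b)) hB), ?_⟩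
      rw [hDB]
      ext x
      simp only [Set.mem_inter_iff, Set.mem_preimage, skew_iter_fst]
  have hset : {ω : Fin n → W × F | (ω k₁).1 ∈ A}
      ∩ {ω | ∀ i, i ≠ k₁ → (skew T₀ φ)^[a] (ω i) ∈ D i}
      ∩ {ω | ∀ i, i ≠ k₁ → (skew T₀ φ)^[a + b] (ω i) ∈ D i} = Set.pi Set.univ D' := by
    ext ω
    simp only [Set.mem_inter_iff, Set.mem_ofPred_eq, Set.mem_pi, Set.mem_univ, true_implies]
    constructor
    · rintro ⟨⟨h1, h2⟩, h3⟩ i
      by_cases hi : i = k₁
      · simp only [D', hi, if_true]; exact h1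
      · simp only [D', hi, if_false]; exact ⟨h2 i hi, h3 i hi⟩
    · intro h
      refine ⟨⟨?_, fun i hi => ?_⟩, fun i hi => ?_⟩
      · have := h k₁
        simp only [D', if_true] at this
        exact this
      · have := h i
        simp only [D', hi, if_false] at this
        exact this.1
      · have := h i
        simp only [D', hi, if_false] at this
        exact this.2
  rw [hset, hF D' hG, ← Finset.mul_prod_erase Finset.univ _ (Finset.mem_univ k₁)]
  congr 1
  · simp only [D', if_true]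
    rw [← Set.prod_univ, Measure.prod_prod, measure_univ, mul_one]
  · apply Finset.prod_congr rfl
    intro i hi
    have hi : i ≠ k₁ := (Finset.mem_erase.mp hi).1
    simp only [D', hi, if_false]
    have : (skew T₀ φ)^[a] ⁻¹' (D i) ∩ (skew T₀ φ)^[a + b] ⁻¹' (D i)
        = (skew T₀ φ)^[a] ⁻¹' (D i ∩ (skew T₀ φ)^[b] ⁻¹' (D i)) := by
      ext x
      simp only [Set.mem_inter_iff, Set.mem_preimage]
      rw [add_comm a b, Function.iterate_add_apply]
    rw [this, (hmp.iterate a).measure_preimage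
      (((hD i).1.inter ((hm.iterate b) (hD i).1))).nullMeasurableSet]

/-- the main orthogonality, in terms of rectangles in the coordinate `k₁` -/
lemma formula_rect {n K : ℕ} (hT₀ : MeasurePreserving T₀ lam lam)
    (hφ : Measurable (Function.uncurry φ)) (hφm : ∀ w, MeasurePreserving (φ w) m m)
    (hmix : ∀ A B : Set (W × F), MeasurableSet A → MeasurableSet B →
      Tendsto (fun n : ℕ => (lam.prod m) (A ∩ (skew T₀ φ)^[n] ⁻¹' B)) atTop
        (𝓝 ((lam.prod m) A * (lam.prod m) B)))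
    (hrec : ∀ B : Set F, MeasurableSet B → ∀ ε > 0, ∀ᵐ w ∂lam, ∃ᶠ k in atTop,
      dd m T₀ φ B w 0 k < ε)
    {ν : Measure (Fin n → W × F)} [IsProbabilityMeasure ν]
    (hν : MeasurePreserving (fun x i => skew T₀ φ (x i)) ν ν)
    (hmarg : ∀ j, ν.map (fun x => x j) = lam.prod m)
    (hF : Formula (lam.prod m) ν K)
    {k₁ : Fin n} (hk₁ : k₁.1 = K) {D : Fin n → Set (W × F)} (hD : Good (K + 1) D)
    {A : Set W} (hA : MeasurableSet A) {B : Set F} (hB : MeasurableSet B) :
    ν ({ω | (ω k₁).1 ∈ A} ∩ {ω | (ω k₁).2 ∈ B} ∩ {ω | ∀ i, i ≠ k₁ → ω i ∈ D i})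
      = lam A * m B * ∏ i ∈ Finset.univ.erase k₁, (lam.prod m) (D i) := by
  classical
  have hm := measurable_skew (φ := φ) hT₀ hφ
  have hmp := measurePreserving_skew hT₀ hφ hφm
  let Z : ℕ → Set (Fin n → W × F) := fun a => {ω | ∀ i, i ≠ k₁ → (skew T₀ φ)^[a] (ω i) ∈ D i}
  have hZ : ∀ a, MeasurableSet (Z a) := by
    intro a
    have : Z a = ⋂ i ∈ Finset.univ.erase k₁, {ω : Fin n → W × F | (skew T₀ φ)^[a] (ω i) ∈ D i} := by
      ext ω
      simp only [Z, Set.mem_ofPred_eq, Set.mem_iInter, Finset.mem_erase, Finset.mem_univ, and_true]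
    rw [this]
    apply Finset.measurableSet_biInter
    intro i _
    exact ((hm.iterate a).comp (measurable_pi_apply i)) (hD i).1
  let c : ℝ := ∏ i ∈ Finset.univ.erase k₁, (lam.prod m).real (D i)
  let w : (Fin n → W × F) → W := fun ω => (ω k₁).1
  have hwm : Measurable w := measurable_fst.comp (measurable_pi_apply k₁)
  have hw : MeasurePreserving w ν lam := by
    refine ⟨hwm, ?_⟩
    have : w = Prod.fst ∘ (fun x : Fin n → W × F => x k₁) := rfl
    rw [this, ← Measure.map_map measurable_fst (measurable_pi_apply k₁), hmarg k₁,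
      Measure.map_fst_prod, measure_univ, one_smul]
  let e : (Fin n → W × F) → ℝ := {ω | (ω k₁).2 ∈ B}.indicator fun _ => 1
  have hBm : MeasurableSet {ω : Fin n → W × F | (ω k₁).2 ∈ B} :=
    (measurable_snd.comp (measurable_pi_apply k₁)) hB
  let ψ : (Fin n → W × F) → ℝ := fun ω => (Z 0).indicator (fun _ => (1 : ℝ)) ω - c
  have hc0 : 0 ≤ c := Finset.prod_nonneg fun i _ => measureReal_nonneg
  have hc1 : c ≤ 1 := Finset.prod_le_one (fun i _ => measureReal_nonneg) fun i _ =>
    measureReal_le_one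
  have hind : ∀ (S : Set (Fin n → W × F)) ω, 0 ≤ S.indicator (fun _ => (1 : ℝ)) ω
      ∧ S.indicator (fun _ => (1 : ℝ)) ω ≤ 1 := by
    intro S ω
    by_cases h : ω ∈ S
    · simp [h]
    · simp [h]
  let ρ : ℕ → ℝ := fun b => ∏ i ∈ Finset.univ.erase k₁,
    (lam.prod m).real (D i ∩ (skew T₀ φ)^[b] ⁻¹' (D i)) - c ^ 2
  -- values of the iterates
  have hψn : ∀ a ω, ψ ((fun (x : Fin n → W × F) i => skew T₀ φ (x i))^[a] ω)
      = (Z a).indicator (fun _ => (1 : ℝ)) ω - c := by
    intro a ω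
    simp only [ψ]
    congr 1
    have : (fun (x : Fin n → W × F) i => skew T₀ φ (x i))^[a] ω ∈ Z 0 ↔ ω ∈ Z a := by
      simp only [Z, Set.mem_ofPred_eq, iter_pi, Function.iterate_zero, id]
    by_cases h : ω ∈ Z a
    · rw [Set.indicator_of_mem h, Set.indicator_of_mem (this.2 h)]
    · rw [Set.indicator_of_notMem h, Set.indicator_of_notMem (fun h2 => h (this.1 h2))]
  -- measures of base event ∩ Z a ∩ Z (a+b)
  have hpair : ∀ A : Set W, MeasurableSet A → ∀ a b,
      ν.real (w ⁻¹' A ∩ (Z a ∩ Z (a + b))) = lam.real A * (ρ b + c ^ 2) := by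
    intro A hA a b
    have := formula_pair hT₀ hφ hφm hF hk₁ hD hA a b
    have e1 : w ⁻¹' A ∩ (Z a ∩ Z (a + b)) = {ω | (ω k₁).1 ∈ A}
      ∩ {ω | ∀ i, i ≠ k₁ → (skew T₀ φ)^[a] (ω i) ∈ D i}
      ∩ {ω | ∀ i, i ≠ k₁ → (skew T₀ φ)^[a + b] (ω i) ∈ D i} := by
      rw [Set.inter_assoc]; rfl
    rw [measureReal_def, e1, this, ENNReal.toReal_mul, ENNReal.toReal_prod]
    simp only [ρ, sub_add_cancel]
    rfl
  have hone : ∀ A : Set W, MeasurableSet A → ∀ a, ν.real (w ⁻¹' A ∩ Z a) = lam.real A * c := by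
    intro A hA a
    have := hpair A hA a 0
    rw [add_zero, Set.inter_self] at this
    rw [this]
    simp only [ρ, sub_add_cancel, Function.iterate_zero, Set.preimage_id, Set.inter_self]
    rfl
  have hρ : ∀ A : Set W, MeasurableSet A → ∀ a b,
      ∫ ω in w ⁻¹' A, ψ ((fun (x : Fin n → W × F) i => skew T₀ φ (x i))^[a] ω)
        * ψ ((fun (x : Fin n → W × F) i => skew T₀ φ (x i))^[a + b] ω) ∂ν = lam.real A * ρ b := by
    intro A hA a b
    have hAm : MeasurableSet (w ⁻¹' A) := hwm hA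
    simp only [hψn]
    have e1 : ∀ ω, ((Z a).indicator (fun _ => (1 : ℝ)) ω - c)
        * ((Z (a + b)).indicator (fun _ => (1 : ℝ)) ω - c)
        = ((Z a ∩ Z (a + b)).indicator (fun _ => (1 : ℝ)) ω
          - c * (Z a).indicator (fun _ => (1 : ℝ)) ω)
          - (c * (Z (a + b)).indicator (fun _ => (1 : ℝ)) ω - c ^ 2) := by
      intro ω
      by_cases h1 : ω ∈ Z a <;> by_cases h2 : ω ∈ Z (a + b) <;> simp [h1, h2] <;> ring
    simp only [e1]
    have hi : ∀ S : Set (Fin n → W × F), MeasurableSet S →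
        Integrable (S.indicator fun _ => (1 : ℝ)) (ν.restrict (w ⁻¹' A)) := fun S hS =>
      (integrable_const (1 : ℝ)).indicator hS
    have hv : ∀ S : Set (Fin n → W × F), MeasurableSet S →
        ∫ ω in w ⁻¹' A, S.indicator (fun _ => (1 : ℝ)) ω ∂ν = ν.real (w ⁻¹' A ∩ S) := by
      intro S hS
      rw [integral_indicator hS, Measure.restrict_restrict hS, setIntegral_const, smul_eq_mul,
        mul_one, Set.inter_comm]
    have hwA : ν.real (w ⁻¹' A) = lam.real A := by
      rw [measureReal_def, measureReal_def, hw.measure_preimage hA.nullMeasurableSet]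
    rw [integral_sub, integral_sub, integral_sub, integral_const_mul, integral_const_mul,
      hv _ ((hZ a).inter (hZ (a + b))), hv _ (hZ a), hv _ (hZ (a + b)), hpair A hA, hone A hA,
      hone A hA, setIntegral_const, smul_eq_mul, hwA]
    · ring
    · exact (hi _ (hZ (a + b))).const_mul c
    · exact integrable_const _
    · exact hi _ ((hZ a).inter (hZ (a + b)))
    · exact (hi _ (hZ a)).const_mul c
    · exact (hi _ ((hZ a).inter (hZ (a + b)))).sub ((hi _ (hZ a)).const_mul c)
    · exact ((hi _ (hZ (a + b))).const_mul c).sub (integrable_const _)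
  have hρ0 : Tendsto ρ atTop (𝓝 0) := by
    have h1 : Tendsto (fun b => ∏ i ∈ Finset.univ.erase k₁,
        (lam.prod m).real (D i ∩ (skew T₀ φ)^[b] ⁻¹' (D i))) atTop
        (𝓝 (∏ i ∈ Finset.univ.erase k₁, ((lam.prod m).real (D i) * (lam.prod m).real (D i)))) := by
      apply tendsto_finsetProd
      intro i _
      have := hmix (D i) (D i) (hD i).1 (hD i).1
      have h2 := (ENNReal.tendsto_toReal (ENNReal.mul_ne_top (measure_ne_top _ _)
        (measure_ne_top _ _))).comp this
      rw [ENNReal.toReal_mul] at h2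
      exact h2
    have h2 : ∏ i ∈ Finset.univ.erase k₁, ((lam.prod m).real (D i) * (lam.prod m).real (D i))
        = c ^ 2 := by
      rw [Finset.prod_mul_distrib, sq]
    rw [h2] at h1
    have := h1.sub_const (c ^ 2)
    rw [sub_self] at this
    exact this
  -- apply the core estimate
  have hcore := core ν lam hν hT₀ hw (fun ω => rfl) (e := e) (ψ := ψ)
    (measurable_const.indicator hBm)
    (((measurable_const.indicator (hZ 0))).sub measurable_const)
    (fun ω => by
      rw [abs_of_nonneg (hind _ ω).1]; exact (hind _ ω).2)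
    (fun ω => by
      simp only [ψ]
      have := hind (Z 0) ω
      rw [abs_le]
      constructor <;> linarith [this.1, this.2])
    (d := dd m T₀ φ B) (measurable_dd hm hB) (dd_symm B) (dd_diag B) (dd_le B)
    (by
      intro a b A hA
      rw [integral_dd hm hB hA]
      have hD1 := measurableSet_diffSet hm hB a b
      have e1 : ∀ ω : Fin n → W × F,
          |e ((fun (x : Fin n → W × F) i => skew T₀ φ (x i))^[a] ω)
            - e ((fun (x : Fin n → W × F) i => skew T₀ φ (x i))^[b] ω)|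
          = ((fun x : Fin n → W × F => x k₁) ⁻¹' (diffSet T₀ φ B a b)).indicator
            (fun _ => (1 : ℝ)) ω := by
        intro ω
        simp only [e, Set.indicator_apply, Set.mem_ofPred_eq, iter_pi, Set.mem_preimage, diffSet]
        by_cases h1 : ((skew T₀ φ)^[a] (ω k₁)).2 ∈ B <;>
          by_cases h2 : ((skew T₀ φ)^[b] (ω k₁)).2 ∈ B <;> simp [h1, h2]
      simp only [e1]
      rw [integral_indicator ((measurable_pi_apply k₁) hD1), setIntegral_const, smul_eq_mul,
        mul_one, measureReal_restrict_apply ((measurable_pi_apply k₁) hD1), ← hmarg k₁,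
        map_measureReal_apply (measurable_pi_apply k₁) ((measurable_fst hA).inter hD1)]
      congr 1
      rw [Set.inter_comm]
      rfl)
    (dd_shift hm hφm hB) (hrec B hB) hρ0 hρ hA
  -- read off the formula
  have hAm : MeasurableSet (w ⁻¹' A) := hwm hA
  have hread : ∫ ω in w ⁻¹' A, e ω * ψ ω ∂ν
      = ν.real (w ⁻¹' A ∩ {ω | (ω k₁).2 ∈ B} ∩ Z 0) - c * ν.real (w ⁻¹' A ∩ {ω | (ω k₁).2 ∈ B}) := by
    have e1 : ∀ ω, e ω * ψ ω = ({ω | (ω k₁).2 ∈ B} ∩ Z 0).indicator (fun _ => (1 : ℝ)) ω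
        - c * {ω : Fin n → W × F | (ω k₁).2 ∈ B}.indicator (fun _ => (1 : ℝ)) ω := by
      intro ω
      simp only [e, ψ]
      by_cases h1 : ω ∈ {ω : Fin n → W × F | (ω k₁).2 ∈ B} <;> by_cases h2 : ω ∈ Z 0 <;>
        simp only [Set.indicator_of_mem, Set.indicator_of_notMem, h1, h2, Set.mem_inter_iff,
          and_self, and_true, and_false, not_false_eq_true] <;> ring
    have hi : ∀ S : Set (Fin n → W × F), MeasurableSet S →
        Integrable (S.indicator fun _ => (1 : ℝ)) (ν.restrict (w ⁻¹' A)) := fun S hS =>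
      (integrable_const (1 : ℝ)).indicator hS
    have hv : ∀ S : Set (Fin n → W × F), MeasurableSet S →
        ∫ ω in w ⁻¹' A, S.indicator (fun _ => (1 : ℝ)) ω ∂ν = ν.real (w ⁻¹' A ∩ S) := by
      intro S hS
      rw [integral_indicator hS, Measure.restrict_restrict hS, setIntegral_const, smul_eq_mul,
        mul_one, Set.inter_comm]
    simp only [e1]
    rw [integral_sub (hi _ (hBm.inter (hZ 0))) ((hi _ hBm).const_mul c), integral_const_mul,
      hv _ (hBm.inter (hZ 0)), hv _ hBm, Set.inter_assoc]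
  have hAB : ν.real (w ⁻¹' A ∩ {ω | (ω k₁).2 ∈ B}) = lam.real A * m.real B := by
    have h1 : w ⁻¹' A ∩ {ω | (ω k₁).2 ∈ B} = (fun x : Fin n → W × F => x k₁) ⁻¹' (A ×ˢ B) := by
      ext ω
      simp [w]
    rw [h1, ← map_measureReal_apply (measurable_pi_apply k₁) (hA.prod hB), hmarg k₁,
      measureReal_def, Measure.prod_prod, ENNReal.toReal_mul]
    rfl
  rw [hread, hAB] at hcore
  have hfin : ν.real ({ω | (ω k₁).1 ∈ A} ∩ {ω | (ω k₁).2 ∈ B} ∩ {ω | ∀ i, i ≠ k₁ → ω i ∈ D i})
      = lam.real A * m.real B * c := by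
    have : ν.real (w ⁻¹' A ∩ {ω | (ω k₁).2 ∈ B} ∩ Z 0)
        = ν.real ({ω | (ω k₁).1 ∈ A} ∩ {ω | (ω k₁).2 ∈ B} ∩ {ω | ∀ i, i ≠ k₁ → ω i ∈ D i}) := rfl
    rw [← this]
    linarith
  have hne : ν ({ω | (ω k₁).1 ∈ A} ∩ {ω | (ω k₁).2 ∈ B} ∩ {ω | ∀ i, i ≠ k₁ → ω i ∈ D i}) ≠ ⊤ :=
    measure_ne_top _ _
  have hne2 : lam A * m B * ∏ i ∈ Finset.univ.erase k₁, (lam.prod m) (D i) ≠ ⊤ :=
    ENNReal.mul_ne_top (ENNReal.mul_ne_top (measure_ne_top _ _) (measure_ne_top _ _))
      (ENNReal.prod_ne_top fun i _ => measure_ne_top _ _)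
  rw [← ENNReal.toReal_eq_toReal_iff' hne hne2]
  rw [ENNReal.toReal_mul, ENNReal.toReal_mul, ENNReal.toReal_prod]
  exact hfin

/-- one more coordinate -/
lemma formula_succ {n K : ℕ} (hT₀ : MeasurePreserving T₀ lam lam)
    (hφ : Measurable (Function.uncurry φ)) (hφm : ∀ w, MeasurePreserving (φ w) m m)
    (hmix : ∀ A B : Set (W × F), MeasurableSet A → MeasurableSet B →
      Tendsto (fun n : ℕ => (lam.prod m) (A ∩ (skew T₀ φ)^[n] ⁻¹' B)) atTop
        (𝓝 ((lam.prod m) A * (lam.prod m) B)))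
    (hrec : ∀ B : Set F, MeasurableSet B → ∀ ε > 0, ∀ᵐ w ∂lam, ∃ᶠ k in atTop,
      dd m T₀ φ B w 0 k < ε)
    {ν : Measure (Fin n → W × F)} [IsProbabilityMeasure ν]
    (hν : MeasurePreserving (fun x i => skew T₀ φ (x i)) ν ν)
    (hmarg : ∀ j, ν.map (fun x => x j) = lam.prod m)
    (hF : Formula (lam.prod m) ν K) {k₁ : Fin n} (hk₁ : k₁.1 = K) :
    Formula (lam.prod m) ν (K + 1) := by
  classical
  intro D hD
  let Z : Set (Fin n → W × F) := {ω | ∀ i, i ≠ k₁ → ω i ∈ D i}
  let C : ENNReal := ∏ i ∈ Finset.univ.erase k₁, (lam.prod m) (D i)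
  have hC : C ≠ ⊤ := ENNReal.prod_ne_top fun i _ => measure_ne_top _ _
  have hZ : MeasurableSet Z := by
    have : Z = ⋂ i ∈ Finset.univ.erase k₁, {ω : Fin n → W × F | ω i ∈ D i} := by
      ext ω
      simp only [Z, Set.mem_ofPred_eq, Set.mem_iInter, Finset.mem_erase, Finset.mem_univ, and_true]
    rw [this]
    apply Finset.measurableSet_biInter
    intro i _
    exact (measurable_pi_apply i) (hD i).1
  let M1 : Measure (W × F) := (ν.restrict Z).map fun ω => ω k₁
  have hM1 : ∀ s, MeasurableSet s → M1 s = ν ((fun ω : Fin n → W × F => ω k₁) ⁻¹' s ∩ Z) := by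
    intro s hs
    simp only [M1]
    rw [Measure.map_apply (measurable_pi_apply k₁) hs,
      Measure.restrict_apply ((measurable_pi_apply k₁) hs)]
  have : IsFiniteMeasure (C • lam) := by
    refine ⟨?_⟩
    rw [Measure.smul_apply, measure_univ, smul_eq_mul, mul_one]
    exact hC.lt_top
  have hprod : (C • lam).prod m = M1 := by
    apply Measure.prod_eq
    intro s t hs ht
    rw [hM1 _ (hs.prod ht), Measure.smul_apply, smul_eq_mul]
    have h1 := formula_rect hT₀ hφ hφm hmix hrec hν hmarg hF hk₁ hD hs ht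
    have h2 : (fun ω : Fin n → W × F => ω k₁) ⁻¹' (s ×ˢ t) ∩ Z
        = {ω | (ω k₁).1 ∈ s} ∩ {ω | (ω k₁).2 ∈ t} ∩ {ω | ∀ i, i ≠ k₁ → ω i ∈ D i} := by
      ext ω
      simp [Z]
    rw [h2, h1]
    ring
  have hset : Set.pi Set.univ D = (fun ω : Fin n → W × F => ω k₁) ⁻¹' (D k₁) ∩ Z := by
    ext ω
    simp only [Set.mem_pi, Set.mem_univ, true_implies, Set.mem_inter_iff, Set.mem_preimage, Z,
      Set.mem_ofPred_eq]
    constructor
    · exact fun h => ⟨h k₁, fun i _ => h i⟩
    · rintro ⟨h1, h2⟩ i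
      by_cases hi : i = k₁
      · rw [hi]; exact h1
      · exact h2 i hi
  rw [hset, ← hM1 _ (hD k₁).1, ← hprod, Measure.prod_smul_left, Measure.smul_apply, smul_eq_mul,
    ← Finset.mul_prod_erase Finset.univ (fun i => (lam.prod m) (D i)) (Finset.mem_univ k₁), mul_comm]

/-- joinings over an independent base are products -/
theorem eq_pi {n : ℕ} (hT₀ : MeasurePreserving T₀ lam lam)
    (hφ : Measurable (Function.uncurry φ)) (hφm : ∀ w, MeasurePreserving (φ w) m m)
    (hmix : ∀ A B : Set (W × F), MeasurableSet A → MeasurableSet B →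
      Tendsto (fun n : ℕ => (lam.prod m) (A ∩ (skew T₀ φ)^[n] ⁻¹' B)) atTop
        (𝓝 ((lam.prod m) A * (lam.prod m) B)))
    (hrec : ∀ B : Set F, MeasurableSet B → ∀ ε > 0, ∀ᵐ w ∂lam, ∃ᶠ k in atTop,
      dd m T₀ φ B w 0 k < ε)
    {ν : Measure (Fin n → W × F)} [IsProbabilityMeasure ν]
    (hν : MeasurePreserving (fun x i => skew T₀ φ (x i)) ν ν)
    (hmarg : ∀ j, ν.map (fun x => x j) = lam.prod m)
    (hbase : ν.map (fun x j => (x j).1) = Measure.pi fun _ => lam) :
    ν = Measure.pi fun _ => lam.prod m := by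
  have h0 : Formula (lam.prod m) ν 0 := by
    intro D hD
    choose A hA hDA using fun i => (hD i).2 (Nat.zero_le _)
    have hmb : Measurable fun (x : Fin n → W × F) j => (x j).1 :=
      measurable_pi_lambda _ fun j => measurable_fst.comp (measurable_pi_apply j)
    have h1 : Set.pi Set.univ D = (fun (x : Fin n → W × F) j => (x j).1) ⁻¹' (Set.pi Set.univ A) := by
      ext x
      simp only [Set.mem_pi, Set.mem_univ, true_implies, Set.mem_preimage, hDA]
    rw [h1, ← Measure.map_apply hmb (MeasurableSet.univ_pi hA), hbase, Measure.pi_pi]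
    apply Finset.prod_congr rfl
    intro i _
    rw [hDA i, ← Set.prod_univ, Measure.prod_prod, measure_univ, mul_one]
  have hall : ∀ K, K ≤ n → Formula (lam.prod m) ν K := by
    intro K
    induction K with
    | zero => exact fun _ => h0
    | succ K ih =>
      intro hK
      exact formula_succ hT₀ hφ hφm hmix hrec hν hmarg (ih (by omega)) (k₁ := ⟨K, by omega⟩) rfl
  symm
  apply Measure.pi_eq
  intro D hD
  exact hall n le_rfl D fun i => ⟨hD i, fun h => absurd i.2 (by omega)⟩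

end

end Pool.Agent.H52J
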